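import Mathlib
import Pool.Agent.H759R2.Kad.Props3

/-!
Kadison part 3, task 14: flattening by a scalar unitary (signs times the Fourier matrix).
-/

open scoped ComplexOrder InnerProductSpace ComplexConjugate
open Finset

noncomputable section

namespace H759R2.Kad

universe u v

namespace A14

/-- the potential: a bound for the sixth moment -/
def gg (s A : ℝ) : ℝ := s ^ 3 + 15 * s ^ 2 * A + 45 * s * A ^ 2 + 15 * A ^ 3

theorem gg_step {s b r A : ℝ} (hs : 0 ≤ s) (hb : 0 ≤ b) (hA : 0 ≤ A) (hr : r ^ 2 ≤ s * b) :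
    gg (s + b + 2 * r) A + gg (s + b - 2 * r) A ≤ 2 * gg s (A + b) := by
  unfold gg
  have h1 : 0 ≤ (s + b) * (s * b - r ^ 2) := mul_nonneg (add_nonneg hs hb) (by linarith)
  have h2 : 0 ≤ A * (s * b - r ^ 2) := mul_nonneg hA (by linarith)
  have h3 : 0 ≤ s * b ^ 2 := by positivity
  have h4 : 0 ≤ b ^ 3 := by positivity
  have h5 : 0 ≤ A * b ^ 2 := by positivity
  nlinarith [h1, h2, h3, h4, h5]

variable {B : Type u} [CStarAlgebra B] (τ : B →ₗ[ℂ] ℂ)

/-- the square of the seminorm -/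
def N (y : B) : ℝ := (τ (star y * y)).re

/-- the real inner product -/
def Bf (y z : B) : ℝ := ((τ (star y * z)).re + (τ (star z * y)).re) / 2

theorem N_add (e : ℝ) (y z : B) :
    N τ (y + (e : ℂ) • z) = N τ y + e ^ 2 * N τ z + 2 * e * Bf τ y z := by
  unfold N Bf
  have h : star (y + (e : ℂ) • z) * (y + (e : ℂ) • z) = star y * y + (e : ℂ) • (star y * z) +
      ((e : ℂ) • (star z * y) + ((e : ℂ) * (e : ℂ)) • (star z * z)) := by
    rw [star_add, star_smul, Complex.star_def, Complex.conj_ofReal, add_mul, mul_add, mul_add,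
      mul_smul_comm, smul_mul_assoc, smul_mul_assoc, mul_smul_comm, smul_smul]
  rw [h]
  simp only [map_add, map_smul, smul_eq_mul, Complex.add_re]
  rw [← Complex.ofReal_mul, Complex.re_ofReal_mul, Complex.re_ofReal_mul, Complex.re_ofReal_mul]
  ring

theorem N_nonneg (hτ : IsTracialState τ) (y : B) : 0 ≤ N τ y :=
  (Complex.nonneg_iff.1 (hτ.pos y)).1

theorem cs (hτ : IsTracialState τ) (y z : B) : Bf τ y z ^ 2 ≤ N τ y * N τ z := by
  have h : ∀ x : ℝ, 0 ≤ N τ z * (x * x) + (2 * Bf τ y z) * x + N τ y := by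
    intro x
    have := N_nonneg τ hτ (y + (x : ℂ) • z)
    rw [N_add] at this
    linarith
  have h2 := discrim_le_zero h
  unfold discrim at h2
  nlinarith

theorem signs (hτ : IsTracialState τ) {P : Type} [Fintype P] {n : ℕ} (a : P → Fin n → B)
    (T : Finset (Fin n)) : ∃ e : Fin n → ℝ, (∀ k, e k = 1 ∨ e k = -1) ∧
      ∑ p, gg (N τ (∑ k ∈ T, (e k : ℂ) • a p k)) (∑ k ∈ Tᶜ, N τ (a p k)) ≤
        ∑ p, gg 0 (∑ k, N τ (a p k)) := by
  classical
  induction T using Finset.induction_on with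
  | empty =>
    refine ⟨fun _ => 1, fun _ => Or.inl rfl, ?_⟩
    simp [N]
  | insert k0 T hk0 ih =>
    obtain ⟨e, he, hle⟩ := ih
    set s : P → ℝ := fun p => N τ (∑ k ∈ T, (e k : ℂ) • a p k) with hs
    set b : P → ℝ := fun p => N τ (a p k0) with hb
    set r : P → ℝ := fun p => Bf τ (∑ k ∈ T, (e k : ℂ) • a p k) (a p k0) with hr
    set A : P → ℝ := fun p => ∑ k ∈ (insert k0 T)ᶜ, N τ (a p k) with hA
    have hA0 : ∀ p, 0 ≤ A p := fun p => sum_nonneg fun k _ => N_nonneg τ hτ _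
    have hAb : ∀ p, ∑ k ∈ Tᶜ, N τ (a p k) = A p + b p := by
      intro p
      have : Tᶜ = insert k0 (insert k0 T)ᶜ := by
        ext k
        simp only [mem_compl, mem_insert]
        by_cases hk : k = k0
        · subst hk; simp [hk0]
        · simp [hk]
      rw [this, sum_insert (by simp)]
      ring
    have key : ∀ δ : ℝ, δ ^ 2 = 1 → ∀ p,
        N τ (∑ k ∈ insert k0 T, ((Function.update e k0 δ k : ℝ) : ℂ) • a p k) =
          s p + b p + 2 * δ * r p := by
      intro δ hδ p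
      rw [sum_insert hk0, Function.update_self]
      have : ∑ k ∈ T, ((Function.update e k0 δ k : ℝ) : ℂ) • a p k =
          ∑ k ∈ T, (e k : ℂ) • a p k := by
        refine sum_congr rfl fun k hk => ?_
        rw [Function.update_of_ne (fun h : k = k0 => hk0 (by rw [← h]; exact hk))]
      rw [this, add_comm, N_add, hδ, one_mul]
    have hsum : ∑ p, gg (s p + b p + 2 * r p) (A p) + ∑ p, gg (s p + b p - 2 * r p) (A p) ≤
        2 * ∑ p, gg (s p) (A p + b p) := by
      rw [← sum_add_distrib, mul_sum]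
      exact sum_le_sum fun p _ => gg_step (N_nonneg τ hτ _) (N_nonneg τ hτ _) (hA0 p) (cs τ hτ _ _)
    have hle' : ∑ p, gg (s p) (A p + b p) ≤ ∑ p, gg 0 (∑ k, N τ (a p k)) := by
      refine le_trans (le_of_eq ?_) hle
      refine sum_congr rfl fun p _ => ?_
      rw [hAb]
    have hupd : ∀ δ : ℝ, (δ = 1 ∨ δ = -1) → ∀ k, Function.update e k0 δ k = 1 ∨
        Function.update e k0 δ k = -1 := by
      intro δ hδ k
      by_cases hk : k = k0
      · rw [hk, Function.update_self]; exact hδ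
      · rw [Function.update_of_ne hk]; exact he k
    by_cases hcase : ∑ p, gg (s p + b p + 2 * r p) (A p) ≤ ∑ p, gg 0 (∑ k, N τ (a p k))
    · refine ⟨Function.update e k0 1, hupd 1 (Or.inl rfl), ?_⟩
      refine le_trans (le_of_eq ?_) hcase
      refine sum_congr rfl fun p _ => ?_
      rw [key 1 (by norm_num) p, mul_one]
    · refine ⟨Function.update e k0 (-1), hupd (-1) (Or.inr rfl), ?_⟩
      have h2 : ∑ p, gg (s p + b p - 2 * r p) (A p) ≤ ∑ p, gg 0 (∑ k, N τ (a p k)) := by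
        linarith
      refine le_trans (le_of_eq ?_) h2
      refine sum_congr rfl fun p _ => ?_
      rw [key (-1) (by norm_num) p]
      congr 1
      ring

/-- residue class of an index -/
def zc (m : ℕ) (k : Fin (m + 1)) : ZMod (m + 1) := ((k : ℕ) : ZMod (m + 1))

theorem zc_inj (m : ℕ) : Function.Injective (zc m) := by
  intro k l h
  have h2 := congrArg ZMod.val h
  unfold zc at h2
  rw [ZMod.val_natCast_of_lt k.isLt, ZMod.val_natCast_of_lt l.isLt] at h2
  exact Fin.ext h2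

theorem zc_bij (m : ℕ) : Function.Bijective (zc m) := by
  rw [Fintype.bijective_iff_injective_and_card]
  exact ⟨zc_inj m, by rw [ZMod.card, Fintype.card_fin]⟩

/-- the Fourier matrix -/
def Fm (m : ℕ) (k j : Fin (m + 1)) : ℂ :=
  (((Real.sqrt ((m + 1 : ℕ) : ℝ)) : ℝ) : ℂ)⁻¹ *
    ZMod.stdAddChar (N := m + 1) (zc m k * zc m j)

theorem Fm_norm (m : ℕ) (k j : Fin (m + 1)) : ‖Fm m k j‖ ^ 2 = 1 / ((m + 1 : ℕ) : ℝ) := by
  have h0 : (0 : ℝ) ≤ ((m + 1 : ℕ) : ℝ) := by positivity
  unfold Fm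
  rw [norm_mul, AddChar.norm_apply, mul_one, norm_inv, Complex.norm_real, Real.norm_eq_abs,
    abs_of_nonneg (Real.sqrt_nonneg _), inv_pow, Real.sq_sqrt h0, one_div]

theorem Fm_orth (m : ℕ) (j l : Fin (m + 1)) :
    ∑ k, conj (Fm m k j) * Fm m k l = if j = l then 1 else 0 := by
  have h0 : (0 : ℝ) < ((m + 1 : ℕ) : ℝ) := by positivity
  have h1 : ∀ k : Fin (m + 1), conj (Fm m k j) * Fm m k l =
      (((m + 1 : ℕ) : ℂ))⁻¹ * ZMod.stdAddChar (N := m + 1)
        (zc m k * (zc m l - zc m j)) := by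
    intro k
    unfold Fm
    rw [map_mul, map_inv₀, Complex.conj_ofReal, mul_sub, sub_eq_add_neg,
      AddChar.map_add_eq_mul, AddChar.map_neg_eq_conj]
    have h2 : (((Real.sqrt ((m + 1 : ℕ) : ℝ)) : ℝ) : ℂ)⁻¹ *
        (((Real.sqrt ((m + 1 : ℕ) : ℝ)) : ℝ) : ℂ)⁻¹ = (((m + 1 : ℕ) : ℂ))⁻¹ := by
      rw [← mul_inv, ← Complex.ofReal_mul, Real.mul_self_sqrt h0.le]
      push_cast
      rfl
    rw [← h2]
    ring
  rw [sum_congr rfl fun k _ => h1 k, ← mul_sum]
  have h3 := AddChar.sum_mulShift (R := ZMod (m + 1)) (R' := ℂ)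
    (ψ := ZMod.stdAddChar (N := m + 1)) (zc m l - zc m j)
    (ZMod.isPrimitive_stdAddChar (m + 1))
  have h4 : ∑ k : Fin (m + 1), ZMod.stdAddChar (N := m + 1)
        (zc m k * (zc m l - zc m j)) =
      ∑ x : ZMod (m + 1), ZMod.stdAddChar (N := m + 1)
        (x * (zc m l - zc m j)) :=
    Fintype.sum_bijective (zc m) (zc_bij m) _ _ fun _ => rfl
  rw [h4, h3]
  by_cases hjl : j = l
  · subst hjl
    rw [if_pos rfl, if_pos (sub_self _)]
    rw [ZMod.card]
    apply inv_mul_cancel₀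
    exact_mod_cast (Nat.succ_ne_zero m)
  · rw [if_neg hjl, if_neg]
    · simp
    · intro h
      exact hjl (zc_inj m (sub_eq_zero.1 h)).symm

end A14

open A14 in
theorem prove3_flat : K_flat.{u} := by
  intro B _ _ _ τ hτ n hn x hx
  obtain ⟨m, rfl⟩ : ∃ m, n = m + 1 := ⟨n - 1, by omega⟩
  have hm0 : (0 : ℝ) < ((m + 1 : ℕ) : ℝ) := by positivity
  set a : (Fin (m + 1) × Fin (m + 1)) → Fin (m + 1) → B :=
    fun p k => Fm m k p.2 • x p.1 k with ha
  obtain ⟨e, he, hle⟩ := signs τ hτ a univ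
  -- row sums
  have hN : ∀ (p : Fin (m + 1) × Fin (m + 1)) (k : Fin (m + 1)),
      N τ (a p k) = 1 / ((m + 1 : ℕ) : ℝ) * (τ (x p.1 k * star (x p.1 k))).re := by
    intro p k
    simp only [ha, N]
    rw [star_smul, smul_mul_assoc, mul_smul_comm, smul_smul, map_smul, smul_eq_mul, hτ.comm,
      Complex.star_def, Complex.conj_mul', ← Complex.ofReal_pow, Complex.re_ofReal_mul, Fm_norm]
  have hrow : ∀ i, ∑ k, (τ (x i k * star (x i k))).re = 1 := by
    intro i
    have h1 : x * star x = 1 := (Unitary.mem_iff.1 hx).2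
    have h2 : (x * star x) i i = 1 := by
      rw [h1, CStarMatrix.one_apply_eq]
    rw [CStarMatrix.mul_apply] at h2
    simp only [CStarMatrix.star_apply] at h2
    rw [← Complex.re_sum, ← map_sum, h2, hτ.one, Complex.one_re]
  have hsum : ∀ p, ∑ k, N τ (a p k) = 1 / ((m + 1 : ℕ) : ℝ) := by
    intro p
    rw [sum_congr rfl fun k _ => hN p k, ← mul_sum, hrow, mul_one]
  have htot : ∑ p : Fin (m + 1) × Fin (m + 1), gg 0 (∑ k, N τ (a p k)) =
      15 / ((m + 1 : ℕ) : ℝ) := by
    simp only [hsum]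
    rw [sum_const, card_univ, Fintype.card_prod, Fintype.card_fin, nsmul_eq_mul]
    unfold gg
    push_cast
    field_simp
    ring
  set t : Matrix (Fin (m + 1)) (Fin (m + 1)) ℂ := Matrix.of fun k j => (e k : ℂ) * Fm m k j
    with ht
  have htk : ∀ k j, t k j = (e k : ℂ) * Fm m k j := fun k j => rfl
  refine ⟨t, ?_, ?_⟩
  · have h0 : star t * t = 1 := by
      ext j l
      rw [Matrix.mul_apply]
      have h1 : ∀ k, (star t) j k * t k l = conj (Fm m k j) * Fm m k l := by
        intro k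
        rw [Matrix.star_apply, htk, htk]
        have h2 : (e k : ℂ) * (e k : ℂ) = 1 := by
          rcases he k with h | h <;> rw [h] <;> norm_num
        rw [Complex.star_def, map_mul, Complex.conj_ofReal]
        calc _ = ((e k : ℂ) * (e k : ℂ)) * (conj (Fm m k j) * Fm m k l) := by ring
          _ = _ := by rw [h2, one_mul]
      rw [sum_congr rfl fun k _ => h1 k, Fm_orth, Matrix.one_apply]
    exact Unitary.mem_iff.2 ⟨h0, mul_eq_one_comm.1 h0⟩
  · intro i j
    have hent : (x * tens t 1 : CStarMatrix _ _ B) i j =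
        ∑ k, (e k : ℂ) • a (i, j) k := by
      rw [CStarMatrix.mul_apply]
      refine sum_congr rfl fun k _ => ?_
      show x i k * (t k j • (1 : B)) = (e k : ℂ) • (Fm m k j • x i k)
      rw [htk, mul_smul_comm, mul_one, smul_smul]
    have hp : pmat τ (x * tens t 1) i j =
        N τ (∑ k, (e k : ℂ) • a (i, j) k) := by
      unfold pmat N
      rw [hent]
    rw [hp]
    rw [htot] at hle
    refine le_trans ?_ hle
    have hg : ∀ p, gg (N τ (∑ k, (e k : ℂ) • a p k)) (∑ k ∈ (univ : Finset (Fin (m + 1)))ᶜ,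
        N τ (a p k)) = N τ (∑ k, (e k : ℂ) • a p k) ^ 3 := by
      intro p
      rw [compl_univ, sum_empty]
      unfold gg
      ring
    rw [sum_congr rfl fun p _ => hg p]
    exact single_le_sum (f := fun p : Fin (m + 1) × Fin (m + 1) =>
      N τ (∑ k, (e k : ℂ) • a p k) ^ 3) (fun p _ => pow_nonneg (N_nonneg τ hτ _) 3)
      (mem_univ (i, j))

end H759R2.Kad
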